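import Pool.Agent.N922.PY.Stm

/-!
# Project PY (helper922): parts FIN0 and NML
-/

set_option autoImplicit false
set_option linter.all false

open Polynomial
open scoped Classical

namespace Pool.Agent.N130.PYH

open Pool.Agent.Y723.HJ (CR OddM HF clmap mapR CC mi bar nm cl)
open Pool.Agent.N922.PY

theorem qmap_norm {R S : Type} [CommRing R] [CommRing S] (φ : R →+* S) (f : R[X])
    (z : QuadraticAlgebra R[X] f 0) : (qmap φ f z).norm = z.norm.map φ := by
  rw [QuadraticAlgebra.norm_def, QuadraticAlgebra.norm_def]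
  change z.re.map φ * z.re.map φ + 0 * z.re.map φ * z.im.map φ -
    f.map φ * z.im.map φ * z.im.map φ = _
  simp only [Polynomial.map_sub, Polynomial.map_add, Polynomial.map_mul, zero_mul,
    Polynomial.map_zero]

theorem norm_mk {R : Type} [CommRing R] (f u : R[X]) :
    (⟨u, 0⟩ : QuadraticAlgebra R[X] f 0).norm = u ^ 2 := by
  rw [QuadraticAlgebra.norm_def]
  ring

theorem t_FIN0 : S_FIN0 := by
  intro f hm hd U x γ F h p hU hγ h1 h2
  have hr : OddM (r2 f) := ⟨hm.map _, by rw [hm.natDegree_map, hd]; decide⟩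
  have hdr : (r2 f).natDegree = 5 := by rw [hm.natDegree_map, hd]
  have e1 : to2 f (⟨U, 0⟩ + 2 * p) = ⟨r2 U, 0⟩ := by
    rw [two_mul, map_add, map_add]
    have e2 : to2 f p + to2 f p = 0 := by
      refine QuadraticAlgebra.ext ?_ ?_
      · exact CharTwo.add_self_eq_zero (r2 p.re)
      · exact CharTwo.add_self_eq_zero (r2 p.im)
    rw [e2, add_zero]
    refine QuadraticAlgebra.ext rfl ?_
    exact Polynomial.map_zero _
  have e3 : to2 f ⟨X - C x, 0⟩ = ⟨X - C (PadicInt.toZMod x), 0⟩ := by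
    refine QuadraticAlgebra.ext ?_ ?_
    · change (X - C x).map _ = _
      rw [Polynomial.map_sub, map_X, map_C]
    · exact Polynomial.map_zero _
  have h3 := congrArg (fun z => (to2 f z).norm) h1
  simp only [map_mul] at h3
  rw [e1, e3, norm_mk, norm_mk, qmap_norm _ _ F, h2] at h3
  simp only [Polynomial.map_mul, Polynomial.map_pow, Polynomial.map_sub, map_C, map_X] at h3
  have hU0 : r2 U ≠ 0 := (hU.map _).ne_zero
  have hx0 : (X - C (PadicInt.toZMod x) : (ZMod 2)[X]) ≠ 0 := X_sub_C_ne_zero _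
  have hγ0 : (PadicInt.toZMod γ : ZMod 2) ≠ 0 := (hγ.map (PadicInt.toZMod (p := 2))).ne_zero
  have h4 : X - C (PadicInt.toZMod x) = C (PadicInt.toZMod γ) * (to2 f h).norm := by
    have h5 : r2 U ^ 2 * (X - C (PadicInt.toZMod x)) * (X - C (PadicInt.toZMod x)) =
        r2 U ^ 2 * (X - C (PadicInt.toZMod x)) * (C (PadicInt.toZMod γ) * (to2 f h).norm) := by
      calc r2 U ^ 2 * (X - C (PadicInt.toZMod x)) * (X - C (PadicInt.toZMod x))
          = r2 U ^ 2 * (X - C (PadicInt.toZMod x)) ^ 2 := by ring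
        _ = _ := by rw [h3]; ring
    exact mul_left_cancel₀ (mul_ne_zero (pow_ne_zero 2 hU0) hx0) h5
  have h6 : (to2 f h).norm.natDegree = 1 := by
    have h7 := congrArg natDegree h4
    rw [natDegree_X_sub_C, natDegree_C_mul hγ0] at h7
    exact h7.symm
  have h8 : to2 f h ≠ 0 := by
    intro h9
    rw [h9, QuadraticAlgebra.norm_zero, natDegree_zero] at h6
    exact zero_ne_one h6
  rcases Pool.Agent.Y723.HJ.cases_norm (f := r2 f) (to2 f h) h8 with ⟨-, -, -, h9, -⟩ |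
    ⟨-, -, -, h9, -⟩
  · omega
  · omega

theorem t_NML : S_NML := by
  intro f _ d d' ⟨D, U, p, h1, h2, h3, h4, h5⟩ ⟨D', U', p', k1, k2, k3, k4, k5⟩
  refine ⟨D * D', U * U', ⟨U, 0⟩ * p' + ⟨U', 0⟩ * p + 2 * (p * p'),
    Pool.Agent.Y723.HJ.mul_ne_bot h1 k1, ?_, h3.mul k3, ?_, ?_⟩
  · rw [Pool.Agent.Y723.HJ.cl_mul h1 k1, h2, k2]
  · rw [Pool.Agent.Y723.HJ.nm_mul h1 k1, h4, k4, Polynomial.map_mul]
  · have e : (⟨U * U', 0⟩ + 2 * (⟨U, 0⟩ * p' + ⟨U', 0⟩ * p + 2 * (p * p')) : AA f) =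
        (⟨U, 0⟩ + 2 * p) * (⟨U', 0⟩ + 2 * p') := by
      have e1 : (⟨U * U', 0⟩ : AA f) = ⟨U, 0⟩ * ⟨U', 0⟩ := by
        refine QuadraticAlgebra.ext ?_ ?_
        · rw [QuadraticAlgebra.re_mul]
          ring
        · rw [QuadraticAlgebra.im_mul]
          ring
      rw [e1]
      ring
    rw [e, map_mul, mul_pow]
    exact Ideal.mul_mem_mul h5 k5

end Pool.Agent.N130.PYH
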